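import Mathlib
import Pool.Agent.TH841.SH.Wt
import Pool.Agent.W307.FK.Main
import Pool.Agent.W307.RS.MainD
import Pool.Agent.W307.RT.Tors

/-!
# Tate-Shafarevich groups of all the curves with full rational 2-torsion

All elliptic curves over `ℚ` with full rational 2-torsion, ordered by the absolute value of the
minimal discriminant: the average of `(2 ^ rank * #Ш[2]) ^ 2` is bounded by a constant `C`, and so
are, with the same `C`, the averages of `(2 ^ rank * #Ш[2 ^ k] ^ (1 / k)) ^ 2` for all `k`. The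
proportion of the curves of rank at least `r` whose Tate-Shafarevich group contains a subgroup
`(ℚ₂ / ℤ₂) ^ δ` is at most `C / 4 ^ (r + δ)`.
-/

set_option autoImplicit false

namespace Pool.Agent.Results.MP_e23604_nt.AllFullTwoTorsion

open Finset Filter

open Pool.Agent.TH841.SH.D (Sha ShaTor HasDiv rk)

/-- the curve `y² = x³ + A x + B` over `ℚ` -/
def E (A B : ℤ) : WeierstrassCurve ℚ := ⟨0, 0, 0, (A : ℚ), (B : ℚ)⟩

/-- the absolute value of the minimal discriminant of an elliptic curve `W` over `ℚ`: the smallest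
absolute value of the discriminant of a Weierstrass equation `V` with integer coefficients which is
isomorphic to `W` over `ℚ` -/
noncomputable def minDisc (W : WeierstrassCurve ℚ) : ℕ :=
  sInf {n : ℕ | ∃ (V : WeierstrassCurve ℤ) (C : WeierstrassCurve.VariableChange ℚ),
    C • W = V.map (Int.castRingHom ℚ) ∧ n = V.Δ.natAbs}

/-- The pairs `(A, B)` of integers such that `4 A³ + 27 B² ≠ 0`, there is no prime `p` with
`p⁴ ∣ A` and `p⁶ ∣ B`, the minimal discriminant of `y² = x³ + A x + B` is at most `Z`, and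
`Z/2 x Z/2` embeds in the group of its rational points. (Every elliptic curve over `ℚ` is
isomorphic to `E A B` for exactly one pair with the first two properties.) -/
def Fam (Z : ℕ) : Set (ℤ × ℤ) :=
  {c : ℤ × ℤ | 4 * c.1 ^ 3 + 27 * c.2 ^ 2 ≠ 0 ∧
    (∀ p : ℕ, p.Prime → ¬ ((p : ℤ) ^ 4 ∣ c.1 ∧ (p : ℤ) ^ 6 ∣ c.2)) ∧
    (∃ f : ZMod 2 × ZMod 2 →+ (E c.1 c.2).toAffine.Point, Function.Injective f) ∧
    minDisc (E c.1 c.2) ≤ Z}

lemma Fam_eq (Z : ℕ) : Fam Z = Pool.Agent.W307.RS.DvS 2 Z := by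
  ext c
  have h : Pool.Agent.W307.RT.HasT 2 (Pool.Agent.W307.RT.Sh c.1 c.2) ↔
      ∃ f : ZMod 2 × ZMod 2 →+ (E c.1 c.2).toAffine.Point, Function.Injective f :=
    Pool.Agent.W307.RT.tors_iff
  unfold Fam Pool.Agent.W307.RS.DvS
  rw [Set.mem_ofPred_eq, Set.mem_ofPred_eq, h]
  exact Iff.rfl

/-- The number of these curves of minimal discriminant at most `Z` tends to infinity. -/
theorem card_tendsto : Tendsto (fun Z : ℕ => (Fam Z).ncard) atTop atTop := by
  obtain ⟨C, hC⟩ := Pool.Agent.W307.FK.find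
  have h1 := Pool.Agent.W307.RT.tendsto_of_low Pool.Agent.W672.FK.lowf
  have h2 : Tendsto (fun Z : ℕ => (Pool.Agent.W307.RT.Cv 2 (Z / 32)).card) atTop atTop :=
    h1.comp (Nat.tendsto_div_const_atTop (by norm_num))
  refine tendsto_atTop_mono (fun Z => ?_) h2
  rw [Fam_eq, ← Set.ncard_coe_finset]
  exact Set.ncard_le_ncard (Pool.Agent.W307.RS.Cv_sub Pool.Agent.W554.RS.mdl 2 (Z / 32) Z
    (Nat.mul_div_le Z 32)) (hC Z).1

open Classical in
/-- **Theorem.** For all `Z` there are finitely many elliptic curves over `ℚ` with full rational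
2-torsion and minimal discriminant at most `Z` in absolute value, the groups `Ш[2 ^ k]` of these
curves are finite, and with a constant `C` that depends neither on `Z` nor on `k`, `r`, `δ`:
the average of `(2 ^ rank * #Ш[2 ^ k] ^ (1 / k)) ^ 2` over these curves is at most `C` (for `k = 1`
this is the average of `(2 ^ rank * #Ш[2]) ^ 2`), and the proportion of the curves of rank at least
`r` whose Tate-Shafarevich group has a subgroup isomorphic to `(ℚ₂ / ℤ₂) ^ δ` is at most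
`C / 4 ^ (r + δ)`. -/
theorem result : ∃ C : ℝ, ∀ Z : ℕ, ∃ hfin : (Fam Z).Finite,
    (∀ c ∈ Fam Z, ∀ k : ℕ, Finite (ShaTor (E c.1 c.2) (2 ^ k))) ∧
    (∀ k : ℕ, 1 ≤ k → ∑ c ∈ hfin.toFinset, ((2 : ℝ) ^ rk (E c.1 c.2) *
      (Nat.card (ShaTor (E c.1 c.2) (2 ^ k)) : ℝ) ^ ((1 : ℝ) / k)) ^ 2 ≤
        C * hfin.toFinset.card) ∧
    ∀ r δ : ℕ, ((hfin.toFinset.filter (fun c => r ≤ rk (E c.1 c.2) ∧
      HasDiv (E c.1 c.2) δ)).card : ℝ) ≤ C * hfin.toFinset.card / 4 ^ (r + δ) := by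
  obtain ⟨C, hC⟩ := Pool.Agent.W307.FK.find
  obtain ⟨F, -, hF⟩ := Pool.Agent.W513.FK.parf
  refine ⟨C, fun Z => ?_⟩
  obtain ⟨h1, h2, h3⟩ := hC Z
  rw [← Fam_eq] at h1 h2 h3
  have hbd : ∀ c ∈ h1.toFinset, Pool.Agent.TH841.SH.Bd (Pool.Agent.W307.RT.Sh c.1 c.2)
      ((Pool.Agent.W307.SE.SelR c.1 c.2).ncard : ℝ) := by
    intro c hc
    rw [Set.Finite.mem_toFinset] at hc
    have hc' := hc
    rw [Fam_eq] at hc'
    obtain ⟨-, -, -, -, -, e1, e2, e3, he, -, -⟩ := hF c hc'.1 hc'.2.2.1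
    exact Pool.Agent.TH841.SH.bd_selR hc'.1 he (h2 c hc)
  obtain ⟨k1, k2, k3⟩ := Pool.Agent.TH841.SH.family h1.toFinset
    (fun c => Pool.Agent.W307.RT.Sh c.1 c.2) _ _ 2 hbd (h3 h1.toFinset h1.coe_toFinset)
  refine ⟨h1, fun c hc k => k1 c (h1.mem_toFinset.2 hc) k, k2, fun r δ => ?_⟩
  have k4 := k3 r δ
  rw [pow_mul] at k4
  norm_num at k4
  exact k4

end Pool.Agent.Results.MP_e23604_nt.AllFullTwoTorsion
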