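import Mathlib
import Pool.Agent.TH841.PT.Fin1

/-!
# Tate-Shafarevich groups of the quadratic twists by the values of a polynomial

`E : y² = x³ + A x + B` is an elliptic curve with three integer roots and `D` an arbitrary nonzero
polynomial with integer coefficients, of any degree. For all `s` and `k` the average of
`(2 ^ rank * #Ш[2 ^ k] ^ (1 / k)) ^ s` over the twists of `E` by `D(t)`, `N < t ≤ N + M`, is
bounded, uniformly for `|N| ≤ M ^ L`.
-/

set_option autoImplicit false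

namespace Pool.Agent.Results.MP_e23604_nt.PolynomialTwists

open Finset Polynomial

open Pool.Agent.TH841.SH.D (Sha ShaTor HasDiv rk)

/-- the quadratic twist `y² = x³ + d² A x + d³ B` of `y² = x³ + A x + B` over `ℚ` by `d` -/
def Tw (A B d : ℤ) : WeierstrassCurve ℚ := ⟨0, 0, 0, ((d ^ 2 * A : ℤ) : ℚ), ((d ^ 3 * B : ℤ) : ℚ)⟩

/-- the integers `t` with `N < t ≤ N + M` and `D(t) ≠ 0` -/
noncomputable def Par (D : ℤ[X]) (N : ℤ) (M : ℕ) : Finset ℤ :=
  (Ioc N (N + M)).filter (fun t => D.eval t ≠ 0)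

open Classical in
/-- **Theorem.** Let `y² = (x - e₁) (x - e₂) (x - e₃) = x³ + A x + B` be an elliptic curve with
integers `e₁`, `e₂`, `e₃` and `D ≠ 0` a polynomial with integer coefficients. Let `W_t` be the
quadratic twist of the curve by `D(t)`. For all `s` and `L` there is `C` such that for all integers
`M ≥ 1` and `|N| ≤ M ^ L` and the `t` with `N < t ≤ N + M`, `D(t) ≠ 0`: the groups
`Ш(W_t)[2 ^ k]` are finite, the sum of `(2 ^ rank * #Ш(W_t)[2 ^ k] ^ (1 / k)) ^ s` is at most `C M`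
for all `k ≥ 1`, and at most `C M / 2 ^ (s (r + q))` of these `t` have a twist `W_t` of rank at
least `r` with a subgroup `(ℚ₂ / ℤ₂) ^ q` in the Tate-Shafarevich group. -/
theorem result (A B e₁ e₂ e₃ : ℤ) (hE : 4 * A ^ 3 + 27 * B ^ 2 ≠ 0)
    (he : ∀ x : ℤ, x ^ 3 + A * x + B = (x - e₁) * (x - e₂) * (x - e₃))
    (D : ℤ[X]) (hD : D ≠ 0) (s L : ℕ) :
    ∃ C : ℝ, ∀ (N : ℤ) (M : ℕ), 1 ≤ M → |N| ≤ (M : ℤ) ^ L →
      (∀ t ∈ Par D N M, ∀ k : ℕ, Finite (ShaTor (Tw A B (D.eval t)) (2 ^ k))) ∧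
      (∀ k : ℕ, 1 ≤ k → ∑ t ∈ Par D N M, ((2 : ℝ) ^ rk (Tw A B (D.eval t)) *
        (Nat.card (ShaTor (Tw A B (D.eval t)) (2 ^ k)) : ℝ) ^ ((1 : ℝ) / k)) ^ s ≤ C * M) ∧
      ∀ r q : ℕ, (((Par D N M).filter (fun t => r ≤ rk (Tw A B (D.eval t)) ∧
        HasDiv (Tw A B (D.eval t)) q)).card : ℝ) ≤ C * M / 2 ^ (s * (r + q)) := by
  obtain ⟨C, hC⟩ := Pool.Agent.TH841.PT.sha_poly Pool.Agent.TH841.PT.avsq hE he D hD s L
  refine ⟨C, fun N M hM hN => ?_⟩
  obtain ⟨h1, h2, h3⟩ := hC N M hM hN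
  exact ⟨h1, h2, h3⟩

end Pool.Agent.Results.MP_e23604_nt.PolynomialTwists
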