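import Mathlib
import Pool.Agent.TH841.SH.Wt
import Pool.Agent.TH841.SH.Ht
import Pool.Agent.W307.RT.Tors

/-!
# Tate-Shafarevich groups of the twists of all curves with full rational 2-torsion, by height

For every nonzero integer `d`, the average of `(2 ^ rank * #Ш[2]) ^ 2` over the quadratic twists by
`d` of all the elliptic curves over `ℚ` with full rational 2-torsion and height at most `H` is at
most `C * 128 ^ ω(d)`, with a constant `C` that depends neither on `H` nor on `d`.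
-/

set_option autoImplicit false

namespace Pool.Agent.Results.MP_e23604_nt.UniformTwists

open Finset Filter

open Pool.Agent.TH841.SH.D (Sha ShaTor HasDiv rk)

/-- the curve `y² = x³ + A x + B` over `ℚ` -/
def E (A B : ℤ) : WeierstrassCurve ℚ := ⟨0, 0, 0, (A : ℚ), (B : ℚ)⟩

/-- the quadratic twist by `d` of the curve `y² = x³ + A x + B`, `c = (A, B)` -/
def Tw (d : ℤ) (c : ℤ × ℤ) : WeierstrassCurve ℚ := E (d ^ 2 * c.1) (d ^ 3 * c.2)

open Classical in
/-- The pairs `(A, B)` of integers such that `4 A³ + 27 B² ≠ 0`, there is no prime `p` with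
`p⁴ ∣ A` and `p⁶ ∣ B`, the height `max (4 |A|³) (27 B²)` is at most `H`, and `Z/2 x Z/2` embeds in
the group of the rational points of `y² = x³ + A x + B`. (The bounds `|A|, |B| ≤ H` follow from the
bound of the height. Every elliptic curve over `ℚ` is isomorphic to `E A B` for exactly one pair
with the first two properties.) -/
noncomputable def Fam (H : ℕ) : Finset (ℤ × ℤ) :=
  ((Icc (-(H : ℤ)) H) ×ˢ (Icc (-(H : ℤ)) H)).filter (fun c : ℤ × ℤ =>
    4 * c.1 ^ 3 + 27 * c.2 ^ 2 ≠ 0 ∧ 4 * |c.1| ^ 3 ≤ H ∧ 27 * c.2 ^ 2 ≤ H ∧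
    (∀ p : ℕ, p.Prime → ¬ ((p : ℤ) ^ 4 ∣ c.1 ∧ (p : ℤ) ^ 6 ∣ c.2)) ∧
    ∃ f : ZMod 2 × ZMod 2 →+ (E c.1 c.2).toAffine.Point, Function.Injective f)

lemma Fam_eq (H : ℕ) : Fam H = Pool.Agent.W307.RT.Cv 2 H := by
  classical
  unfold Fam Pool.Agent.W307.RT.Cv
  apply filter_congr
  intro c _
  have h : Pool.Agent.W307.RT.HasT 2 (Pool.Agent.W307.RT.Sh c.1 c.2) ↔
      ∃ f : ZMod 2 × ZMod 2 →+ (E c.1 c.2).toAffine.Point, Function.Injective f :=
    Pool.Agent.W307.RT.tors_iff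
  rw [h]

/-- The number of these curves of height at most `H` tends to infinity. -/
theorem card_tendsto : Tendsto (fun H : ℕ => (Fam H).card) atTop atTop := by
  simp only [Fam_eq]
  exact Pool.Agent.W307.RT.tendsto_of_low Pool.Agent.W672.FK.lowf

open Classical in
/-- **Theorem.** There is a constant `C` such that for all integers `d ≠ 0` and all `H`, `W` running
over the quadratic twists by `d` of the elliptic curves over `ℚ` with full rational 2-torsion and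
height at most `H`: the groups `Ш(W)[2 ^ k]` are finite, the average of
`(2 ^ rank * #Ш(W)[2 ^ k] ^ (1 / k)) ^ 2` is at most `C * 128 ^ ω(d)` for all `k ≥ 1`, and the
proportion of the `W` of rank at least `r` with a subgroup `(ℚ₂ / ℤ₂) ^ q` in the
Tate-Shafarevich group is at most `C * 128 ^ ω(d) / 4 ^ (r + q)`. -/
theorem result : ∃ C : ℝ, ∀ d : ℤ, d ≠ 0 → ∀ H : ℕ,
    (∀ c ∈ Fam H, ∀ k : ℕ, Finite (ShaTor (Tw d c) (2 ^ k))) ∧
    (∀ k : ℕ, 1 ≤ k → ∑ c ∈ Fam H, ((2 : ℝ) ^ rk (Tw d c) *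
      (Nat.card (ShaTor (Tw d c) (2 ^ k)) : ℝ) ^ ((1 : ℝ) / k)) ^ 2 ≤
        C * 128 ^ d.natAbs.primeFactors.card * (Fam H).card) ∧
    ∀ r q : ℕ, (((Fam H).filter (fun c => r ≤ rk (Tw d c) ∧ HasDiv (Tw d c) q)).card : ℝ) ≤
      C * 128 ^ d.natAbs.primeFactors.card * (Fam H).card / 4 ^ (r + q) := by
  obtain ⟨C, -, hC⟩ := Pool.Agent.TH841.SH.twist_height
  obtain ⟨F, -, hF⟩ := Pool.Agent.W513.FK.parf
  refine ⟨C, fun d hd H => ?_⟩
  obtain ⟨h1, h2⟩ := hC d hd H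
  rw [← Fam_eq] at h1 h2
  have hbd : ∀ c ∈ Fam H, Pool.Agent.TH841.SH.Bd (Tw d c)
      ((Pool.Agent.W307.SE.SelR (d ^ 2 * c.1) (d ^ 3 * c.2)).ncard : ℝ) := by
    intro c hc
    have hc' := hc
    rw [Fam_eq] at hc'
    unfold Pool.Agent.W307.RT.Cv at hc'
    obtain ⟨_, a1, a2, _, _, a3⟩ := mem_filter.1 hc'
    obtain ⟨-, -, -, -, -, e1, e2, e3, he, -, -⟩ := hF c a1 a3
    have hdd : 4 * (d ^ 2 * c.1) ^ 3 + 27 * (d ^ 3 * c.2) ^ 2 ≠ 0 := by
      have e : 4 * (d ^ 2 * c.1) ^ 3 + 27 * (d ^ 3 * c.2) ^ 2 =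
        d ^ 6 * (4 * c.1 ^ 3 + 27 * c.2 ^ 2) := by ring
      rw [e]
      exact mul_ne_zero (pow_ne_zero 6 hd) a1
    exact Pool.Agent.TH841.SH.bd_selR hdd (Pool.Agent.W307.RG.roots_tw he d) (h1 c hc)
  obtain ⟨k1, k2, k3⟩ := Pool.Agent.TH841.SH.family (Fam H) (Tw d) _ _ 2 hbd h2
  refine ⟨k1, k2, fun r q => ?_⟩
  have k4 := k3 r q
  rw [pow_mul] at k4
  norm_num at k4
  exact k4

end Pool.Agent.Results.MP_e23604_nt.UniformTwists
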